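import Pool.Agent.PWG.FinA

set_option autoImplicit false

/-! # MP_8e25e3_nt: few small gaps between 3-powerful numbers (helper83, helper87, pool) -/

namespace Pool.Agent.Results.MP_8e25e3_nt.FewSmallGaps

open Pool.Agent

/-- Among the gaps `a (m + 1) - a m`, `M ≤ m < 2 M`, between consecutive 3-powerful numbers at most
`C * (h / M + M ^ (3 / 4) * h ^ (1 / 12) * (1 + log M) ^ 5)` are at most `h`. -/
theorem result :
    ∃ C : ℝ, 0 < C ∧ ∀ a : ℕ → ℕ, StrictMono a →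
      (∀ n : ℕ, (∃ k : ℕ, a k = n) ↔
        (0 < n ∧ ∀ p : ℕ, Nat.Prime p → p ∣ n → p ^ 3 ∣ n)) →
      ∀ (M : ℕ) (h : ℝ), 1 ≤ M → 0 < h →
        (((Finset.Ico M (2 * M)).filter
          (fun m => (a (m + 1) : ℝ) - (a m : ℝ) ≤ h)).card : ℝ) ≤
          C * (h / M + (M : ℝ) ^ ((3 : ℝ) / 4) * h ^ ((1 : ℝ) / 12) * (1 + Real.log M) ^ 5) := by
  obtain ⟨C, hC0, hC⟩ := PWG.finA
  refine ⟨C, hC0, fun a ha hr M h hM hh => ?_⟩
  obtain ⟨E, hE⟩ := Pow3.exists_enum ha hr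
  have key := hC E M h hM hh
  rw [hE] at key
  exact key

end Pool.Agent.Results.MP_8e25e3_nt.FewSmallGaps
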