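import Pool.Agent.PWG.Exc2
import Pool.Agent.GL3.ExcLow

set_option autoImplicit false

/-! # MP_8e25e3_nt: number of exceptions to Erdos's inequality up to M (helper47, helper83, pool) -/

namespace Pool.Agent.Results.MP_8e25e3_nt.ExceptionalSet

open Filter Topology Pool.Agent.GL3 Pool.Agent.PWG

/-- The number of exceptions `m < M` to `a_{m+1} - a_m > c m ^ c'` is asymptotic to an explicit
constant times `M ^ (c' - 1)` for `21/11 < c' < 2`, and at least a constant times `M ^ (c' - 1)` for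
`1 < c' < 2`. -/
theorem result (a : ℕ → ℕ) (ha : StrictMono a)
    (hr : ∀ n : ℕ, (∃ k : ℕ, a k = n) ↔ (0 < n ∧ ∀ p : ℕ, Nat.Prime p → p ∣ n → p ^ 3 ∣ n))
    (c c' : ℝ) (hc : 0 < c) (hc2 : c' < 2) :
    (21 / 11 < c' →
      Tendsto (fun M : ℕ => (((Finset.range M).filter
        (fun m => (a (m + 1) : ℝ) - a m ≤ c * ((m : ℝ) + 1) ^ c')).card : ℝ) / (M : ℝ) ^ (c' - 1))
        atTop (𝓝 (c * γ * (γ ^ 2 - ∑' w, α w ^ 2) / (3 * (c' - 1))))) ∧
    (1 < c' → ∃ (c1 : ℝ) (M0 : ℕ), 0 < c1 ∧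
      ∀ M : ℕ, M0 ≤ M → c1 * (M : ℝ) ^ (c' - 1) ≤ (((Finset.range M).filter
        (fun m => (a (m + 1) : ℝ) - a m ≤ c * ((m : ℝ) + 1) ^ c')).card : ℝ)) :=
  ⟨fun h => exc2 ha hr hc h hc2, fun h => exc_low ha hr hc h hc2⟩

end Pool.Agent.Results.MP_8e25e3_nt.ExceptionalSet
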