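import Pool.Agent.GL3.Law

set_option autoImplicit false

/-! # MP_8e25e3_nt: limit law of the gaps between consecutive 3-powerful numbers (helper47, pool) -/

namespace Pool.Agent.Results.MP_8e25e3_nt.GapLaw

open Filter Topology Pool.Agent.GL3

/-- The normalized gaps `(a (m+1) - a m) / (3 a_m ^ (2/3))` have the explicit limit distribution
function `Φ` on `[0, 1)`. -/
theorem result (a : ℕ → ℕ) (ha : StrictMono a)
    (hr : ∀ n : ℕ, (∃ k : ℕ, a k = n) ↔ (0 < n ∧ ∀ p : ℕ, Nat.Prime p → p ∣ n → p ^ 3 ∣ n))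
    (s : ℝ) (hs0 : 0 ≤ s) (hs1 : s < 1) :
    Tendsto (fun M : ℕ => (((Finset.range M).filter
      (fun m => (a (m + 1) : ℝ) - a m ≤ 3 * s * (a m : ℝ) ^ ((2 : ℝ) / 3))).card : ℝ) / M) atTop
      (𝓝 (Φ s)) :=
  law ha hr hs0 hs1

end Pool.Agent.Results.MP_8e25e3_nt.GapLaw
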