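import Pool.Agent.CubeGap.Final
import Pool.Agent.GL3.Law

set_option autoImplicit false

/-! # MP_8e25e3_nt: at most one exceptional ratio for each pair of cube classes (helper47) -/

namespace Pool.Agent.Results.MP_8e25e3_nt.OneException

open Filter Topology Pool.Agent.GL3

theorem card_PT_enum {a : ℕ → ℕ} (ha : StrictMono a) (hr : ∀ n : ℕ, (∃ k : ℕ, a k = n) ↔ P3 n)
    (m : ℕ) : (PT (cr (a m))).card = m + 1 := by
  have h : PT (cr (a m)) = (Finset.range (m + 1)).image a := by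
    classical
    ext n
    rw [mem_PT (cr_nonneg _), cr_le, Finset.mem_image, ← hr n]
    constructor
    · rintro ⟨⟨k, rfl⟩, h2⟩
      exact ⟨k, Finset.mem_range.2 (Nat.lt_succ_of_le (ha.le_iff_le.1 h2)), rfl⟩
    · rintro ⟨k, hk, rfl⟩
      exact ⟨⟨k, rfl⟩, ha.monotone (Nat.le_of_lt_succ (Finset.mem_range.1 hk))⟩
  rw [h, Finset.card_image_of_injective _ ha.injective, Finset.card_range]

/-- There is `c > 0` such that whenever `a_{m+1} - a_m ≤ c m ^ (3/100)` and `a_m = w s^3`,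
`a_{m+1} = w' t^3`, every pair of distinct numbers `w s'^3`, `w' t'^3` at distance at most
`c (w s'^3) ^ (1/100)` is proportional to the pair `a_m`, `a_{m+1}`. -/
theorem result : ∃ c : ℝ, 0 < c ∧ ∀ a : ℕ → ℕ, StrictMono a →
    (∀ n : ℕ, (∃ k : ℕ, a k = n) ↔ (0 < n ∧ ∀ p : ℕ, Nat.Prime p → p ∣ n → p ^ 3 ∣ n)) →
    ∀ m : ℕ, (a (m + 1) : ℝ) - a m ≤ c * ((m : ℝ) + 1) ^ ((3 : ℝ) / 100) →
    ∀ w w' s t s' t' : ℕ, a m = w * s ^ 3 → a (m + 1) = w' * t ^ 3 → 0 < s' → 0 < t' →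
    w * s' ^ 3 ≠ w' * t' ^ 3 →
    |((w * s' ^ 3 : ℕ) : ℝ) - ((w' * t' ^ 3 : ℕ) : ℝ)| ≤
      c * ((w * s' ^ 3 : ℕ) : ℝ) ^ ((1 : ℝ) / 100) →
    a m * (w' * t' ^ 3) = a (m + 1) * (w * s' ^ 3) := by
  obtain ⟨c, hc, H⟩ := Pool.Agent.CubeGap.one_ratio
  have hγ : 0 < γ := lt_of_lt_of_le one_pos one_le_gamma
  refine ⟨min c (c / γ ^ ((3 : ℝ) / 100)), by positivity, ?_⟩
  intro a ha hr m hgap w w' s t s' t' e1 e2 hs' ht' hne hclose
  have hpos : ∀ k, 0 < a k := fun k => ((hr (a k)).1 ⟨k, rfl⟩).1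
  have hlt : a m < a (m + 1) := ha (Nat.lt_succ_self m)
  have hw : 0 < w := by
    rcases Nat.eq_zero_or_pos w with h | h
    · have := hpos m; rw [e1, h, Nat.zero_mul] at this; omega
    · exact h
  have hw' : 0 < w' := by
    rcases Nat.eq_zero_or_pos w' with h | h
    · have := hpos (m + 1); rw [e2, h, Nat.zero_mul] at this; omega
    · exact h
  have hs : 0 < s := by
    rcases Nat.eq_zero_or_pos s with h | h
    · have := hpos m; rw [e1, h] at this; simp at this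
    · exact h
  have ht : 0 < t := by
    rcases Nat.eq_zero_or_pos t with h | h
    · have := hpos (m + 1); rw [e2, h] at this; simp at this
    · exact h
  -- `m + 1 ≤ γ * cr (a m)`
  have hcount : (m : ℝ) + 1 ≤ γ * cr (a m) := by
    have h1 := card_PT_le (cr_nonneg (a m))
    rw [card_PT_enum ha hr m] at h1
    push_cast at h1
    exact h1
  have hbase : ((m : ℝ) + 1) ^ ((3 : ℝ) / 100) ≤ γ ^ ((3 : ℝ) / 100) * (a m : ℝ) ^ ((1 : ℝ) / 100) := by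
    have h1 : ((m : ℝ) + 1) ^ ((3 : ℝ) / 100) ≤ (γ * cr (a m)) ^ ((3 : ℝ) / 100) :=
      Real.rpow_le_rpow (by positivity) hcount (by norm_num)
    rw [Real.mul_rpow hγ.le (cr_nonneg _)] at h1
    have h2 : (cr (a m)) ^ ((3 : ℝ) / 100) = (a m : ℝ) ^ ((1 : ℝ) / 100) := by
      unfold cr
      rw [← Real.rpow_mul (Nat.cast_nonneg _)]
      norm_num
    rw [h2] at h1
    exact h1
  have hg1 : |((w * s ^ 3 : ℕ) : ℝ) - ((w' * t ^ 3 : ℕ) : ℝ)| ≤
      c * ((w * s ^ 3 : ℕ) : ℝ) ^ ((1 : ℝ) / 100) := by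
    rw [← e1, ← e2, abs_sub_comm, abs_of_pos (by rw [sub_pos]; exact_mod_cast hlt)]
    refine hgap.trans ?_
    calc min c (c / γ ^ ((3 : ℝ) / 100)) * ((m : ℝ) + 1) ^ ((3 : ℝ) / 100)
        ≤ (c / γ ^ ((3 : ℝ) / 100)) * ((m : ℝ) + 1) ^ ((3 : ℝ) / 100) := by
          gcongr
          exact min_le_right _ _
      _ ≤ (c / γ ^ ((3 : ℝ) / 100)) * (γ ^ ((3 : ℝ) / 100) * (a m : ℝ) ^ ((1 : ℝ) / 100)) := by
          gcongr
      _ = c * (a m : ℝ) ^ ((1 : ℝ) / 100) := by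
          have : γ ^ ((3 : ℝ) / 100) ≠ 0 := (Real.rpow_pos_of_pos hγ _).ne'
          field_simp
  have hg2 : |((w * s' ^ 3 : ℕ) : ℝ) - ((w' * t' ^ 3 : ℕ) : ℝ)| ≤
      c * ((w * s' ^ 3 : ℕ) : ℝ) ^ ((1 : ℝ) / 100) := by
    refine hclose.trans ?_
    gcongr
    exact min_le_left _ _
  have key := H w w' s t s' t' hw hw' hs ht hs' ht' (by rw [← e1, ← e2]; exact hlt.ne) hne hg1 hg2
  rw [e1, e2]
  calc w * s ^ 3 * (w' * t' ^ 3) = w * w' * (s * t') ^ 3 := by ring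
    _ = w * w' * (t * s') ^ 3 := by rw [key]
    _ = w' * t ^ 3 * (w * s' ^ 3) := by ring

end Pool.Agent.Results.MP_8e25e3_nt.OneException
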